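import Pool.Agent.Lib.MP_b197b4_ntKA.RegL

/-!
# Planarity: two curves which are regular at finitely many points lie on a surface regular there
-/

set_option autoImplicit false

namespace Pool.Agent.Lib.MP_b197b4_ntKA

open IsLocalRing

section One

variable {A : Type*} [CommRing A]

/-- The elements of the intersection of the local ideals. -/
theorem mem_map_inf (m P P' : Ideal A) [m.IsPrime] [P'.IsPrime] (hP' : P' ≤ m)
    {x : Localization.AtPrime m} (h : x ∈ P.map (algebraMap A (Localization.AtPrime m)))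
    (h' : x ∈ P'.map (algebraMap A (Localization.AtPrime m))) :
    x ∈ (P ⊓ P').map (algebraMap A (Localization.AtPrime m)) := by
  obtain ⟨⟨⟨a, ha⟩, s⟩, hx⟩ := (IsLocalization.mem_map_algebraMap_iff m.primeCompl _).1 h
  have hx' : x * algebraMap A (Localization.AtPrime m) s = algebraMap A (Localization.AtPrime m) a := hx
  have h1 : algebraMap A (Localization.AtPrime m) a ∈
      P'.map (algebraMap A (Localization.AtPrime m)) := by
    rw [← hx']
    exact Ideal.mul_mem_right _ _ h'
  have h2 : a ∈ P' := by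
    have h3 : (P'.map (algebraMap A (Localization.AtPrime m))).comap
        (algebraMap A (Localization.AtPrime m)) = P' := by
      refine IsLocalization.under_map_of_isPrime_disjoint m.primeCompl _ inferInstance ?_
      rw [Set.disjoint_left]
      intro y hy hy'
      exact hy (hP' hy')
    rw [← h3]
    exact h1
  have h3 : IsUnit (algebraMap A (Localization.AtPrime m) s) :=
    IsLocalization.map_units (Localization.AtPrime m) s
  have h4 : x * algebraMap A (Localization.AtPrime m) s ∈
      (P ⊓ P').map (algebraMap A (Localization.AtPrime m)) := by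
    rw [hx']
    exact Ideal.mem_map_of_mem _ ⟨ha, h2⟩
  exact (Ideal.mul_unit_mem_iff_mem _ h3).1 h4

/-- **Planarity at one point.** -/
theorem plan_one [IsNoetherianRing A] {d : ℕ} (m P P' : Ideal A) [m.IsPrime] [P.IsPrime]
    [P'.IsPrime] (hP : P ≤ m) (hP' : P' ≤ m) [IsRegularLocalRing (Localization.AtPrime m)]
    (hd : ringKrullDim (Localization.AtPrime m) = ((d + 2 : ℕ) : WithBot ℕ∞))
    (h1 : IsPrincipalIdealRing
      (Localization.AtPrime m ⧸ P.map (algebraMap A (Localization.AtPrime m))))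
    (h2 : IsPrincipalIdealRing
      (Localization.AtPrime m ⧸ P'.map (algebraMap A (Localization.AtPrime m)))) :
    ∃ g : Fin d → A, (∀ l, g l ∈ P ⊓ P') ∧ ∃ y : Set (Localization.AtPrime m), y.Finite ∧
      y.ncard ≤ 2 ∧ Ideal.span (Set.range (fun l => algebraMap A (Localization.AtPrime m) (g l)) ∪ y) =
        maximalIdeal (Localization.AtPrime m) := by
  classical
  set R := Localization.AtPrime m with hR
  set φ := algebraMap A R with hφ
  have hPm : P.map φ ≤ maximalIdeal R := by
    rw [← Localization.AtPrime.map_eq_maximalIdeal]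
    exact Ideal.map_mono hP
  have hP'm : P'.map φ ≤ maximalIdeal R := by
    rw [← Localization.AtPrime.map_eq_maximalIdeal]
    exact Ideal.map_mono hP'
  -- the generator `t`
  obtain ⟨t, htm, ht⟩ : ∃ t ∈ maximalIdeal R, ∀ x ∈ maximalIdeal R, x ∈ Ideal.span {t} ⊔ P.map φ := by
    obtain ⟨τ, hτ⟩ := (h1.principal ((maximalIdeal R).map (Ideal.Quotient.mk (P.map φ)))).principal
    obtain ⟨t, rfl⟩ := Ideal.Quotient.mk_surjective τ
    refine ⟨t, ?_, fun x hx => ?_⟩
    · have h3 : Ideal.Quotient.mk (P.map φ) t ∈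
          (maximalIdeal R).map (Ideal.Quotient.mk (P.map φ)) := by
        rw [hτ]
        exact Submodule.mem_span_singleton_self _
      obtain ⟨x, hx, hxt⟩ := (Ideal.mem_map_iff_of_surjective _ Ideal.Quotient.mk_surjective).1 h3
      have h4 : x - t ∈ P.map φ := Ideal.Quotient.eq.1 hxt
      have h5 := (maximalIdeal R).sub_mem hx (hPm h4)
      rwa [sub_sub_cancel] at h5
    · have h3 : Ideal.Quotient.mk (P.map φ) x ∈
          (maximalIdeal R).map (Ideal.Quotient.mk (P.map φ)) := Ideal.mem_map_of_mem _ hx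
      rw [hτ] at h3
      obtain ⟨r, hr⟩ := Submodule.mem_span_singleton.1 h3
      obtain ⟨r, rfl⟩ := Ideal.Quotient.mk_surjective r
      have h4 : r * t - x ∈ P.map φ := by
        apply Ideal.Quotient.eq.1
        rw [map_mul]
        exact hr
      have h5 : x = r * t - (r * t - x) := by ring
      rw [h5]
      exact Submodule.sub_mem _ (Ideal.mem_sup_left (Ideal.mul_mem_left _ _
        (Ideal.mem_span_singleton_self t))) (Ideal.mem_sup_right h4)
  -- the generator `p₀`
  obtain ⟨p₀, hp₀, hp⟩ : ∃ p₀ ∈ P.map φ, ∀ x ∈ P.map φ, x ∈ Ideal.span {p₀} ⊔ (P ⊓ P').map φ := by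
    obtain ⟨τ, hτ⟩ := (h2.principal ((P.map φ).map (Ideal.Quotient.mk (P'.map φ)))).principal
    have h3 : τ ∈ (P.map φ).map (Ideal.Quotient.mk (P'.map φ)) := by
      rw [hτ]
      exact Submodule.mem_span_singleton_self _
    obtain ⟨p₀, hp₀, rfl⟩ := (Ideal.mem_map_iff_of_surjective _ Ideal.Quotient.mk_surjective).1 h3
    refine ⟨p₀, hp₀, fun x hx => ?_⟩
    have h4 : Ideal.Quotient.mk (P'.map φ) x ∈ (P.map φ).map (Ideal.Quotient.mk (P'.map φ)) :=
      Ideal.mem_map_of_mem _ hx
    rw [hτ] at h4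
    obtain ⟨r, hr⟩ := Submodule.mem_span_singleton.1 h4
    obtain ⟨r, rfl⟩ := Ideal.Quotient.mk_surjective r
    have h5 : r * p₀ - x ∈ P'.map φ := by
      apply Ideal.Quotient.eq.1
      rw [map_mul]
      exact hr
    have h6 : r * p₀ - x ∈ P.map φ := (P.map φ).sub_mem ((P.map φ).mul_mem_left _ hp₀) hx
    have h7 : x = r * p₀ - (r * p₀ - x) := by ring
    rw [h7]
    exact Submodule.sub_mem _ (Ideal.mem_sup_left (Ideal.mul_mem_left _ _
      (Ideal.mem_span_singleton_self p₀))) (Ideal.mem_sup_right (mem_map_inf m P P' hP' h6 h5))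
  -- generators
  set s : Set R := {t, p₀} ∪ φ '' (P ⊓ P' : Ideal A) with hs
  have hsm : s ⊆ maximalIdeal R := by
    rintro x (hx | ⟨a, ha, rfl⟩)
    · rcases hx with rfl | hx
      · exact htm
      · rw [Set.mem_singleton_iff.1 hx]
        exact hPm hp₀
    · exact hPm (Ideal.mem_map_of_mem _ ha.1)
  have hspan : Ideal.span s = maximalIdeal R := by
    apply le_antisymm (Ideal.span_le.2 hsm)
    intro x hx
    have h3 : Ideal.span {t} ⊔ P.map φ ≤ Ideal.span s := by
      refine sup_le (Ideal.span_mono ?_) ?_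
      · exact Set.singleton_subset_iff.2 (Or.inl (Or.inl rfl))
      · intro z hz
        have h4 : Ideal.span {p₀} ⊔ (P ⊓ P').map φ ≤ Ideal.span s := by
          refine sup_le (Ideal.span_mono ?_) (Ideal.span_mono Set.subset_union_right)
          exact Set.singleton_subset_iff.2 (Or.inl (Or.inr rfl))
        exact h4 (hp z hz)
    exact h3 (ht x hx)
  have htop : Submodule.span R (Subtype.val ⁻¹' s : Set (maximalIdeal R)) = ⊤ := by
    apply Submodule.map_injective_of_injective (maximalIdeal R).injective_subtype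
    rw [Submodule.map_span, Submodule.map_top, Submodule.range_subtype]
    have h3 : (maximalIdeal R).subtype '' (Subtype.val ⁻¹' s) = s := by
      ext z
      constructor
      · rintro ⟨w, hw, rfl⟩
        exact hw
      · intro hz
        exact ⟨⟨z, hsm hz⟩, hz, rfl⟩
    rw [h3]
    exact hspan
  obtain ⟨T, -, hTs, hTf, hTc, hTt⟩ := exists_gen (linearIndepOn_empty _ _) (Set.empty_subset _) htop
  have hTd : T.ncard = d + 2 := by
    rw [hTc]
    have h3 := IsRegularLocalRing.spanFinrank_maximalIdeal (R := R)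
    rw [hd] at h3
    exact_mod_cast h3
  set T₀ : Set (maximalIdeal R) := {z | z ∈ T ∧ (z : R) ∈ ({t, p₀} : Set R)} with hT₀
  have hT₀c : T₀.ncard ≤ 2 := by
    have h3 : Subtype.val '' T₀ ⊆ ({t, p₀} : Set R) := by
      rintro _ ⟨z, hz, rfl⟩
      exact hz.2
    rw [← Set.ncard_image_of_injective T₀ Subtype.val_injective]
    refine (Set.ncard_le_ncard h3 (Set.toFinite _)).trans ?_
    refine (Set.ncard_insert_le _ _).trans ?_
    rw [Set.ncard_singleton]
  have hT₁ : d ≤ (T \ T₀).ncard := by
    have h3 := Set.ncard_sdiff_add_ncard_of_subset (s := T₀) (t := T) (fun z hz => hz.1) hTf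
    omega
  obtain ⟨T₂, hT₂, hT₂c⟩ := Set.exists_subset_card_eq hT₁
  have hT₂f : T₂.Finite := (hTf.subset Set.sdiff_subset).subset hT₂
  have hcard : Nat.card T₂ = d := by rw [Nat.card_coe_set_eq, hT₂c]
  have : Finite T₂ := hT₂f
  obtain ⟨e⟩ : Nonempty (Fin d ≃ T₂) := ⟨(Finite.equivFinOfCardEq hcard).symm⟩
  have h3 : ∀ l : Fin d, ∃ a ∈ P ⊓ P', φ a = ((e l : maximalIdeal R) : R) := by
    intro l
    have h4 := hT₂ (e l).2
    rcases hTs h4.1 with h5 | ⟨a, ha, h5⟩
    · exact absurd ⟨h4.1, h5⟩ h4.2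
    · exact ⟨a, ha, h5⟩
  choose g hg hge using h3
  refine ⟨g, hg, Subtype.val '' (T \ T₂), (hTf.subset Set.sdiff_subset).image _, ?_, ?_⟩
  · rw [Set.ncard_image_of_injective _ Subtype.val_injective]
    have h4 := Set.ncard_sdiff_add_ncard_of_subset (s := T₂) (t := T)
      (hT₂.trans Set.sdiff_subset) hTf
    omega
  · have h4 : (Set.range fun l => φ (g l)) ∪ Subtype.val '' (T \ T₂) = Subtype.val '' T := by
      ext z
      constructor
      · rintro (⟨l, rfl⟩ | ⟨w, hw, rfl⟩)
        · exact ⟨e l, (hT₂ (e l).2).1, (hge l).symm⟩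
        · exact ⟨w, hw.1, rfl⟩
      · rintro ⟨w, hw, rfl⟩
        by_cases hw2 : w ∈ T₂
        · left
          refine ⟨e.symm ⟨w, hw2⟩, ?_⟩
          show φ (g (e.symm ⟨w, hw2⟩)) = w
          rw [hge, Equiv.apply_symm_apply]
        · exact Or.inr ⟨w, ⟨hw, hw2⟩, rfl⟩
    rw [h4]
    have h5 := congrArg (Submodule.map (maximalIdeal R).subtype) hTt
    rw [Submodule.map_span, Submodule.map_top, Submodule.range_subtype] at h5
    exact h5

end One

section Many

variable {A : Type*} [CommRing A] [IsNoetherianRing A] {ι : Type*} [Finite ι]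

/-- **Planarity at finitely many points.** -/
theorem plan_many {d : ℕ} (m : ι → Ideal A) [hm : ∀ i, (m i).IsMaximal]
    (hinj : Function.Injective m) (P P' : Ideal A) [P.IsPrime] [P'.IsPrime]
    (hP : ∀ i, P ≤ m i) (hP' : ∀ i, P' ≤ m i)
    (hreg : ∀ i, IsRegularLocalRing (Localization.AtPrime (m i)))
    (hd : ∀ i, ringKrullDim (Localization.AtPrime (m i)) = ((d + 2 : ℕ) : WithBot ℕ∞))
    (h1 : ∀ i, IsPrincipalIdealRing
      (Localization.AtPrime (m i) ⧸ P.map (algebraMap A (Localization.AtPrime (m i)))))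
    (h2 : ∀ i, IsPrincipalIdealRing
      (Localization.AtPrime (m i) ⧸ P'.map (algebraMap A (Localization.AtPrime (m i))))) :
    ∃ g : Fin d → A, (∀ l, g l ∈ P ⊓ P') ∧ ∀ i, ∃ y : Set (Localization.AtPrime (m i)), y.Finite ∧
      y.ncard ≤ 2 ∧
      Ideal.span (Set.range (fun l => algebraMap A (Localization.AtPrime (m i)) (g l)) ∪ y) =
        maximalIdeal (Localization.AtPrime (m i)) := by
  classical
  have := Fintype.ofFinite ι
  choose g hg y hy hyc hgy using fun i => plan_one (d := d) (m i) P P' (hP i) (hP' i) (hd i) (h1 i) (h2 i)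
  have hco : Pairwise (Function.onFun IsCoprime fun i => m i ^ 2) := by
    intro i j hij
    exact ((Ideal.isCoprime_of_isMaximal (fun h => hij (hinj h))).pow : IsCoprime (m i ^ 2) (m j ^ 2))
  have he : ∀ i, ∃ e : A, ∀ j, e - (if j = i then 1 else 0) ∈ m j ^ 2 := fun i =>
    Ideal.exists_forall_sub_mem_ideal hco (fun j => if j = i then (1 : A) else 0)
  choose e he using he
  refine ⟨fun l => ∑ i, e i * g i l, fun l => ?_, fun i => ⟨y i, hy i, hyc i, ?_⟩⟩
  · exact Submodule.sum_mem _ fun i _ => (P ⊓ P').mul_mem_left _ (hg i l)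
  set φ := algebraMap A (Localization.AtPrime (m i)) with hφ
  have hsq : ∀ l, φ (∑ j, e j * g j l) - φ (g i l) ∈ maximalIdeal (Localization.AtPrime (m i)) ^ 2 := by
    intro l
    have h3 : ∑ j, e j * g j l - g i l ∈ m i ^ 2 := by
      have h4 : ∑ j, e j * g j l - g i l = ∑ j, (e j - if i = j then 1 else 0) * g j l := by
        simp [sub_mul, Finset.sum_sub_distrib]
      rw [h4]
      exact Submodule.sum_mem _ fun j _ => Ideal.mul_mem_right _ _ (he j i)
    rw [← map_sub, ← Localization.AtPrime.map_eq_maximalIdeal, ← Ideal.map_pow]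
    exact Ideal.mem_map_of_mem _ h3
  have hgm : ∀ l, φ (g i l) ∈ maximalIdeal (Localization.AtPrime (m i)) := by
    intro l
    rw [← hgy i]
    exact Ideal.subset_span (Or.inl ⟨l, rfl⟩)
  have hym : y i ⊆ maximalIdeal (Localization.AtPrime (m i)) := by
    intro z hz
    rw [← hgy i]
    exact Ideal.subset_span (Or.inr hz)
  apply le_antisymm
  · refine Ideal.span_le.2 ?_
    rintro z (⟨l, rfl⟩ | hz)
    · have h3 := Ideal.add_mem _ (Ideal.pow_le_self two_ne_zero (hsq l)) (hgm l)
      rwa [sub_add_cancel] at h3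
    · exact hym hz
  · refine Submodule.le_of_le_smul_of_le_jacobson_bot
      (maximalIdeal (Localization.AtPrime (m i))).fg_of_isNoetherianRing
      (I := maximalIdeal (Localization.AtPrime (m i))) ?_ ?_
    · rw [IsLocalRing.jacobson_eq_maximalIdeal ⊥ bot_ne_top]
    · have h3 : Ideal.span (Set.range (fun l => φ (g i l)) ∪ y i) ≤
          Ideal.span (Set.range (fun l => φ (∑ i, e i * g i l)) ∪ y i) ⊔
            maximalIdeal (Localization.AtPrime (m i)) • maximalIdeal (Localization.AtPrime (m i)) := by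
        refine Ideal.span_le.2 ?_
        rintro z (⟨l, rfl⟩ | hz)
        · have h4 : φ (g i l) = φ (∑ j, e j * g j l) - (φ (∑ j, e j * g j l) - φ (g i l)) := by ring
          show φ (g i l) ∈ _
          rw [h4]
          refine Submodule.sub_mem _ (Submodule.mem_sup_left (Ideal.subset_span (Or.inl ⟨l, rfl⟩)))
            (Submodule.mem_sup_right ?_)
          rw [smul_eq_mul, ← pow_two]
          exact hsq l
        · exact Submodule.mem_sup_left (Ideal.subset_span (Or.inr hz))
      rw [hgy i] at h3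
      exact h3

/-- **The surface.** Two curves `P`, `P'` which are regular at the regular points `m i` lie on a
surface `S` which is regular at these points. -/
theorem exists_surface [Nonempty ι] {d : ℕ} (m : ι → Ideal A) [hm : ∀ i, (m i).IsMaximal]
    (hinj : Function.Injective m) (P P' : Ideal A) [P.IsPrime] [P'.IsPrime]
    (hP : ∀ i, P ≤ m i) (hP' : ∀ i, P' ≤ m i)
    (hreg : ∀ i, IsRegularLocalRing (Localization.AtPrime (m i)))
    (hd : ∀ i, ringKrullDim (Localization.AtPrime (m i)) = ((d + 2 : ℕ) : WithBot ℕ∞))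
    (h1 : ∀ i, IsPrincipalIdealRing
      (Localization.AtPrime (m i) ⧸ P.map (algebraMap A (Localization.AtPrime (m i)))))
    (h2 : ∀ i, IsPrincipalIdealRing
      (Localization.AtPrime (m i) ⧸ P'.map (algebraMap A (Localization.AtPrime (m i))))) :
    ∃ S : Ideal A, S.IsPrime ∧ S ≤ P ∧ S ≤ P' ∧ ∀ i,
      IsRegularLocalRing
        (Localization.AtPrime (m i) ⧸ S.map (algebraMap A (Localization.AtPrime (m i)))) ∧
      ringKrullDim (Localization.AtPrime (m i) ⧸ S.map (algebraMap A (Localization.AtPrime (m i)))) =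
        (2 : WithBot ℕ∞) := by
  classical
  obtain ⟨g, hg, hy⟩ := plan_many m hinj P P' hP hP' hreg hd h1 h2
  choose y hyf hyc hgy using hy
  let G : ∀ i, Set (Localization.AtPrime (m i)) := fun i =>
    Set.range fun l => algebraMap A (Localization.AtPrime (m i)) (g l)
  have hGA : ∀ i, Ideal.span (G i) =
      (Ideal.span (Set.range g)).map (algebraMap A (Localization.AtPrime (m i))) := by
    intro i
    rw [Ideal.map_span, ← Set.range_comp]
    rfl
  have hq : ∀ i, IsRegularLocalRing (Localization.AtPrime (m i) ⧸ Ideal.span (G i)) ∧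
      ringKrullDim (Localization.AtPrime (m i) ⧸ Ideal.span (G i)) = ((2 : ℕ) : WithBot ℕ∞) := by
    intro i
    refine reg_quot (hd i) (Set.finite_range _) (hyf i) ?_ (hyc i) (hgy i)
    show (Set.range fun l => algebraMap A (Localization.AtPrime (m i)) (g l)).ncard ≤ d
    rw [← Set.image_univ]
    refine (Set.ncard_image_le Set.finite_univ).trans ?_
    rw [Set.ncard_univ, Nat.card_eq_fintype_card, Fintype.card_fin]
  have hpr : ∀ i, (Ideal.span (G i)).IsPrime := by
    intro i
    have := (hq i).1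
    exact (Ideal.Quotient.isDomain_iff_prime _).1 (isDomain_of_regular 2 _ (hq i).2)
  let S : ι → Ideal A := fun i => (Ideal.span (G i)).comap (algebraMap A (Localization.AtPrime (m i)))
  have hSmem : ∀ i a, a ∈ S i ↔ ∃ s, s ∉ m i ∧ s * a ∈ Ideal.span (Set.range g) := by
    intro i a
    show algebraMap A (Localization.AtPrime (m i)) a ∈ Ideal.span (G i) ↔ _
    rw [hGA, IsLocalization.algebraMap_mem_map_algebraMap_iff (m i).primeCompl]
    constructor
    · rintro ⟨s, hs, h⟩
      exact ⟨s, hs, h⟩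
    · rintro ⟨s, hs, h⟩
      exact ⟨s, hs, h⟩
  have hgP : Ideal.span (Set.range g) ≤ P ⊓ P' := Ideal.span_le.2 (by rintro _ ⟨l, rfl⟩; exact hg l)
  have hSP : ∀ i, S i ≤ P := by
    intro i a ha
    obtain ⟨s, hs, h⟩ := (hSmem i a).1 ha
    exact ((inferInstance : P.IsPrime).mem_or_mem (hgP h).1).resolve_left fun h3 => hs (hP i h3)
  have hSP' : ∀ i, S i ≤ P' := by
    intro i a ha
    obtain ⟨s, hs, h⟩ := (hSmem i a).1 ha
    exact ((inferInstance : P'.IsPrime).mem_or_mem (hgP h).2).resolve_left fun h3 => hs (hP' i h3)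
  have hSpr : ∀ i, (S i).IsPrime := fun i => Ideal.comap_isPrime _ _
  have hSS : ∀ i j, S i ≤ S j := by
    intro i j a ha
    obtain ⟨s, hs, h⟩ := (hSmem i a).1 ha
    have h3 : s * a ∈ S j := (hSmem j _).2 ⟨1, fun h4 => (hm j).ne_top ((Ideal.eq_top_iff_one _).2 h4),
      by rwa [one_mul]⟩
    exact ((hSpr j).mem_or_mem h3).resolve_left fun h4 => hs (hP i (hSP j h4))
  let i₀ : ι := Classical.arbitrary ι
  refine ⟨S i₀, hSpr i₀, hSP i₀, hSP' i₀, fun i => ?_⟩
  have h3 : S i₀ = S i := le_antisymm (hSS _ _) (hSS _ _)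
  have h4 : (S i₀).map (algebraMap A (Localization.AtPrime (m i))) = Ideal.span (G i) := by
    rw [h3]
    exact IsLocalization.map_under (m i).primeCompl _ _
  rw [h4]
  exact hq i

end Many

/-- The local ring of the surface at a point. -/
theorem local_surface {A : Type*} [CommRing A] (m S : Ideal A) [hm : m.IsPrime] (hS : S ≤ m)
    [hm' : (m.map (Ideal.Quotient.mk S)).IsPrime] :
    Nonempty (Localization.AtPrime m ⧸ S.map (algebraMap A (Localization.AtPrime m)) ≃+*
      Localization.AtPrime (m.map (Ideal.Quotient.mk S))) := by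
  have h1 : Algebra.algebraMapSubmonoid (A ⧸ S) m.primeCompl =
      (m.map (Ideal.Quotient.mk S)).primeCompl := by
    ext x
    constructor
    · rintro ⟨a, ha, rfl⟩ hx
      obtain ⟨b, hb, hab⟩ := (Ideal.mem_map_iff_of_surjective _ Ideal.Quotient.mk_surjective).1 hx
      have h2 : b - a ∈ S := Ideal.Quotient.eq.1 hab
      have h3 := m.sub_mem hb (hS h2)
      rw [sub_sub_cancel] at h3
      exact ha h3
    · intro hx
      obtain ⟨a, rfl⟩ := Ideal.Quotient.mk_surjective x
      exact ⟨a, fun ha => hx (Ideal.mem_map_of_mem _ ha), rfl⟩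
  have h2 : IsLocalization (m.map (Ideal.Quotient.mk S)).primeCompl
      (Localization.AtPrime m ⧸ S.map (algebraMap A (Localization.AtPrime m))) := by
    rw [← h1]
    infer_instance
  exact ⟨(IsLocalization.algEquiv (m.map (Ideal.Quotient.mk S)).primeCompl
    (Localization.AtPrime m ⧸ S.map (algebraMap A (Localization.AtPrime m)))
    (Localization.AtPrime (m.map (Ideal.Quotient.mk S)))).toRingEquiv⟩

end Pool.Agent.Lib.MP_b197b4_ntKA
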