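import Mathlib

/-!
# Regular local rings: quotients by a part of a regular system of parameters, domains
-/

set_option autoImplicit false

namespace Pool.Agent.Lib.MP_b197b4_ntKA

open IsLocalRing

section Gen

variable {R : Type*} [CommRing R] [IsLocalRing R] [IsNoetherianRing R]

/-- A set of elements of the maximal ideal which are independent modulo its square is contained in a
minimal set of generators chosen from a given set of generators. -/
theorem exists_gen {s₀ s : Set (maximalIdeal R)}
    (h0 : LinearIndepOn (ResidueField R) (maximalIdeal R).toCotangent s₀) (h01 : s₀ ⊆ s)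
    (hs : Submodule.span R s = ⊤) :
    ∃ t : Set (maximalIdeal R), s₀ ⊆ t ∧ t ⊆ s ∧ t.Finite ∧
      t.ncard = (maximalIdeal R).spanFinrank ∧ Submodule.span R t = ⊤ := by
  obtain ⟨b, hbs, h0b, hsp, hli⟩ := exists_linearIndepOn_extension h0 h01
  have h1 : Submodule.span (ResidueField R) ((maximalIdeal R).toCotangent '' s) = ⊤ :=
    CotangentSpace.span_image_eq_top_iff.2 hs
  have h2 : Submodule.span (ResidueField R) ((maximalIdeal R).toCotangent '' b) = ⊤ := by
    rw [eq_top_iff, ← h1]
    exact Submodule.span_le.2 hsp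
  have h3 : Submodule.span R b = ⊤ := CotangentSpace.span_image_eq_top_iff.1 h2
  have hfin : FiniteDimensional (ResidueField R) (CotangentSpace R) := inferInstance
  have hbf : b.Finite := by
    have h4 := LinearIndependent.finite hli
    exact Set.toFinite b
  refine ⟨b, h0b, hbs, hbf, ?_, h3⟩
  rw [IsLocalRing.spanFinrank_maximalIdeal_eq_finrank_cotangentSpace]
  have hb : Fintype b := hbf.fintype
  let B : Module.Basis b (ResidueField R) (CotangentSpace R) :=
    Module.Basis.mk hli (by
      rw [← h2]
      apply Submodule.span_mono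
      rintro _ ⟨x, hx, rfl⟩
      exact ⟨⟨x, hx⟩, rfl⟩)
  rw [Module.finrank_eq_card_basis B, Set.ncard_eq_toFinset_card', Set.toFinset_card]

/-- The quotient of a local ring of dimension `d + e` by `d` elements is regular of dimension `e` if
the maximal ideal is generated by these elements and by `e` further ones. -/
theorem reg_quot {d e : ℕ} (hd : ringKrullDim R = ((d + e : ℕ) : WithBot ℕ∞)) {s t : Set R}
    (hs : s.Finite) (ht : t.Finite) (hsd : s.ncard ≤ d) (hte : t.ncard ≤ e)
    (h : Ideal.span (s ∪ t) = maximalIdeal R) :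
    IsRegularLocalRing (R ⧸ Ideal.span s) ∧ ringKrullDim (R ⧸ Ideal.span s) = (e : WithBot ℕ∞) := by
  have hsm : Ideal.span s ≤ maximalIdeal R := by
    rw [← h]
    exact Ideal.span_mono Set.subset_union_left
  have hne : Ideal.span s ≠ ⊤ := fun h1 => (maximalIdeal.isMaximal R).ne_top (top_le_iff.1 (h1 ▸ hsm))
  have hnt : Nontrivial (R ⧸ Ideal.span s) := Ideal.Quotient.nontrivial_iff.2 hne
  have hloc : IsLocalRing (R ⧸ Ideal.span s) :=
    IsLocalRing.of_surjective' (Ideal.Quotient.mk _) Ideal.Quotient.mk_surjective
  -- the dimension is at least `e`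
  have h1 : (e : WithBot ℕ∞) ≤ ringKrullDim (R ⧸ Ideal.span s) := by
    have h2 := ringKrullDim_le_ringKrullDim_quotient_add_encard s (by
      rw [IsLocalRing.ringJacobson_eq_maximalIdeal]
      exact Ideal.span_le.1 hsm)
    rw [hd] at h2
    have h3 : s.encard ≤ (d : ℕ∞) := by
      rw [← hs.cast_ncard_eq]
      exact_mod_cast hsd
    obtain ⟨c, hc⟩ : ∃ c : ℕ∞, ringKrullDim (R ⧸ Ideal.span s) = c :=
      ⟨(ringKrullDim (R ⧸ Ideal.span s)).unbot ringKrullDim_ne_bot, by simp⟩
    rw [hc] at h2 ⊢
    have h4 : ((d + e : ℕ) : ℕ∞) ≤ c + s.encard := by exact_mod_cast h2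
    have h5 : ((d + e : ℕ) : ℕ∞) ≤ c + (d : ℕ∞) := h4.trans (add_le_add_right h3 c)
    have h6 : (e : ℕ∞) ≤ c := by
      rw [Nat.cast_add, add_comm (d : ℕ∞)] at h5
      exact (ENat.add_le_add_iff_right (ENat.natCast_ne_top d)).1 h5
    exact_mod_cast h6
  -- the maximal ideal has `e` generators
  have h2 : (maximalIdeal (R ⧸ Ideal.span s)).spanFinrank ≤ e := by
    have h3 : maximalIdeal (R ⧸ Ideal.span s) =
        Ideal.span ((Ideal.Quotient.mk (Ideal.span s)) '' t) := by
      have h4 : maximalIdeal (R ⧸ Ideal.span s) =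
          (maximalIdeal R).map (Ideal.Quotient.mk (Ideal.span s)) := by
        apply le_antisymm
        · intro y hy
          obtain ⟨x, rfl⟩ := Ideal.Quotient.mk_surjective y
          refine Ideal.mem_map_of_mem _ ?_
          rw [mem_maximalIdeal, mem_nonunits_iff] at hy ⊢
          exact fun hx => hy (hx.map _)
        · rw [Ideal.map_le_iff_le_comap]
          exact ((local_hom_TFAE (Ideal.Quotient.mk (Ideal.span s))).out 0 3).1
            (IsLocalHom.of_surjective _ Ideal.Quotient.mk_surjective)
      rw [h4, ← h, Ideal.map_span, Set.image_union, Ideal.span_union]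
      have h5 : Ideal.span ((Ideal.Quotient.mk (Ideal.span s)) '' s) = ⊥ := by
        rw [Ideal.span_eq_bot]
        rintro _ ⟨x, hx, rfl⟩
        exact Ideal.Quotient.eq_zero_iff_mem.2 (Ideal.subset_span hx)
      rw [h5, bot_sup_eq]
    rw [h3]
    refine (Submodule.spanFinrank_span_le_ncard_of_finite (ht.image _)).trans ?_
    exact (Set.ncard_image_le ht).trans hte
  have h3 : ((maximalIdeal (R ⧸ Ideal.span s)).spanFinrank : WithBot ℕ∞) ≤
      ringKrullDim (R ⧸ Ideal.span s) := le_trans (by exact_mod_cast h2) h1
  have h4 : IsRegularLocalRing (R ⧸ Ideal.span s) := IsRegularLocalRing.of_spanFinrank_maximalIdeal_le _ h3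
  refine ⟨h4, le_antisymm ?_ h1⟩
  rw [← IsRegularLocalRing.spanFinrank_maximalIdeal (R := R ⧸ Ideal.span s)]
  exact_mod_cast h2

end Gen

/-- A regular local ring is an integral domain. -/
theorem isDomain_of_regular (n : ℕ) : ∀ (R : Type*) [CommRing R] [IsRegularLocalRing R],
    ringKrullDim R = (n : WithBot ℕ∞) → IsDomain R := by
  induction n with
  | zero =>
    intro R _ _ hn
    have h1 : (maximalIdeal R).spanFinrank = 0 := by
      have h2 := IsRegularLocalRing.spanFinrank_maximalIdeal (R := R)
      rw [hn] at h2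
      exact_mod_cast h2
    have h2 : maximalIdeal R = ⊥ := by
      have h3 := Submodule.FG.generators_ncard (maximalIdeal R).fg_of_isNoetherianRing
      rw [h1] at h3
      have h4 : (Submodule.generators (maximalIdeal R)) = ∅ :=
        (Set.ncard_eq_zero (Submodule.FG.finite_generators
          (maximalIdeal R).fg_of_isNoetherianRing)).1 h3
      have h5 := Submodule.span_generators (maximalIdeal R)
      rw [h4, Submodule.span_empty] at h5
      exact h5.symm
    exact (IsLocalRing.isField_iff_maximalIdeal_eq.2 h2).isDomain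
  | succ n ih =>
    intro R _ _ hn
    have hsf : (maximalIdeal R).spanFinrank = n + 1 := by
      have h2 := IsRegularLocalRing.spanFinrank_maximalIdeal (R := R)
      rw [hn] at h2
      exact_mod_cast h2
    have hfin : (minimalPrimes R).Finite := minimalPrimes.finite_of_isNoetherianRing R
    have hmin : ∀ p ∈ minimalPrimes R, ¬ maximalIdeal R ≤ p := by
      intro p hp hle
      have hpr : p.IsPrime := hp.1.1
      have h1 : p = maximalIdeal R := le_antisymm (le_maximalIdeal hpr.ne_top) hle
      have h2 : p.height = 0 := Ideal.height_eq_zero_iff.2 hp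
      have h3 := IsLocalRing.maximalIdeal_height_eq_ringKrullDim (R := R)
      rw [← h1, h2, hn] at h3
      have h4 : ((0 : ℕ) : WithBot ℕ∞) = ((n + 1 : ℕ) : WithBot ℕ∞) := by exact_mod_cast h3
      have h5 : (0 : ℕ) = n + 1 := by exact_mod_cast h4
      omega
    have hsq : ¬ maximalIdeal R ≤ maximalIdeal R ^ 2 := by
      intro hle
      have h1 : maximalIdeal R = ⊥ := by
        refine Submodule.eq_bot_of_le_smul_of_le_jacobson_bot (maximalIdeal R) (maximalIdeal R)
          (maximalIdeal R).fg_of_isNoetherianRing ?_ ?_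
        · rw [smul_eq_mul, ← pow_two]
          exact hle
        · rw [IsLocalRing.jacobson_eq_maximalIdeal ⊥ bot_ne_top]
      rw [h1, Submodule.spanFinrank_bot] at hsf
      omega
    -- an element outside the square and the minimal prime ideals
    obtain ⟨x, hx, hx2, hxp⟩ : ∃ x ∈ maximalIdeal R, x ∉ maximalIdeal R ^ 2 ∧
        ∀ p ∈ minimalPrimes R, x ∉ p := by
      by_contra hcon
      push Not at hcon
      classical
      have h1 : ((maximalIdeal R : Ideal R) : Set R) ⊆
          ⋃ i ∈ ((insert (maximalIdeal R ^ 2) hfin.toFinset : Finset (Ideal R)) : Set (Ideal R)),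
            (id i : Ideal R) := by
        intro x hx
        by_cases hx2 : x ∈ maximalIdeal R ^ 2
        · exact Set.mem_biUnion (by simp) hx2
        · obtain ⟨p, hp, hxp⟩ := hcon x hx hx2
          exact Set.mem_biUnion (by simp [hp]) hxp
      rw [Ideal.subset_union_prime (maximalIdeal R ^ 2) (maximalIdeal R ^ 2)] at h1
      · obtain ⟨p, hp, hle⟩ := h1
        rw [Finset.mem_insert, Set.Finite.mem_toFinset] at hp
        rcases hp with rfl | hp
        · exact hsq hle
        · exact hmin p hp hle
      · intro i hi h2 _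
        rw [Finset.mem_insert, Set.Finite.mem_toFinset] at hi
        rcases hi with hi | hi
        · exact absurd hi h2
        · exact hi.1.1
    -- the quotient is regular
    have h0 : LinearIndepOn (ResidueField R) (maximalIdeal R).toCotangent {(⟨x, hx⟩ : maximalIdeal R)} := by
      rw [linearIndepOn_singleton_iff]
      intro h1
      exact hx2 (((maximalIdeal R).toCotangent_eq_zero _).1 h1)
    obtain ⟨t, hxt, -, htf, htc, hts⟩ := exists_gen h0 (Set.subset_univ _)
      (Submodule.span_univ (R := R) (M := maximalIdeal R))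
    have hxt' : (⟨x, hx⟩ : maximalIdeal R) ∈ t := hxt rfl
    have h1 : Ideal.span ({x} ∪ Subtype.val '' (t \ {(⟨x, hx⟩ : maximalIdeal R)})) =
        maximalIdeal R := by
      have h2 : ({x} ∪ Subtype.val '' (t \ {(⟨x, hx⟩ : maximalIdeal R)}) : Set R) =
          Subtype.val '' t := by
        ext y
        constructor
        · rintro (rfl | ⟨z, hz, rfl⟩)
          · exact ⟨_, hxt', rfl⟩
          · exact ⟨z, hz.1, rfl⟩
        · rintro ⟨z, hz, rfl⟩
          by_cases hzx : z = ⟨x, hx⟩
          · left
            rw [hzx]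
            rfl
          · exact Or.inr ⟨z, ⟨hz, hzx⟩, rfl⟩
      rw [h2]
      have h3 := congrArg (Submodule.map (maximalIdeal R).subtype) hts
      rw [Submodule.map_span, Submodule.map_top, Submodule.range_subtype] at h3
      exact h3
    have h2 := reg_quot (d := 1) (e := n) (by rw [hn, add_comm]) (Set.finite_singleton x)
      ((htf.subset Set.diff_subset).image Subtype.val) (by simp) (by
        refine (Set.ncard_image_le (htf.subset Set.diff_subset)).trans ?_
        rw [Set.ncard_diff_singleton_of_mem hxt', htc, hsf]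
        rfl) h1
    have h3 := h2.1
    have h4 : IsDomain (R ⧸ Ideal.span {x}) := ih _ h2.2
    have hpr : (Ideal.span {x}).IsPrime := (Ideal.Quotient.isDomain_iff_prime _).1 h4
    -- a minimal prime ideal inside `(x)` is zero
    obtain ⟨p, hp, hpx⟩ := Ideal.exists_minimalPrimes_le (bot_le : (⊥ : Ideal R) ≤ Ideal.span {x})
    have hpm : p ∈ minimalPrimes R := hp
    have hpp : p.IsPrime := hp.1.1
    have h5 : p = ⊥ := by
      refine Submodule.eq_bot_of_le_smul_of_le_jacobson_bot (Ideal.span {x}) p
        p.fg_of_isNoetherianRing ?_ ?_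
      · intro q hq
        obtain ⟨a, rfl⟩ := Ideal.mem_span_singleton'.1 (hpx hq)
        have h6 : a ∈ p := (hpp.mem_or_mem hq).resolve_right (hxp p hpm)
        rw [mul_comm]
        exact Submodule.smul_mem_smul (Ideal.mem_span_singleton_self x) h6
      · rw [IsLocalRing.jacobson_eq_maximalIdeal ⊥ bot_ne_top]
        exact (Ideal.span_singleton_le_iff_mem _).2 hx
    rw [h5] at hpp
    exact IsDomain.of_bot_isPrime R

end Pool.Agent.Lib.MP_b197b4_ntKA
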